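import Pool.Agent.Helper83.PT.St6
import Pool.Agent.Helper83.DC.Tools

set_option autoImplicit false

namespace Pool.Agent.Helper83.PT.Helper79

open Pool.Agent.Helper73.DC
open Finset
open scoped Classical

open Pool.Agent.Helper83.DC (tIte tEq tDiv tMod tSub tDg tPw tSum)

/-- Products modulo `P` are E2. -/
theorem prodmod_e2 (h2 : StL2) (h4 : StL4) {α : Type} [Fintype α] {P Y H : VF α} (hP : E2 P) (hY : E2 Y) (hH : E2 H) :
    E2 (fun w v => if P w v = 0 then 0 else (∏ i ∈ range (H w v), Y w (scons i v)) % P w v) := by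
  have a0 : E2 (fun w v => if P w v = 0 then 0 else 1 % P w v) :=
    tIte h2 (tEq h2 hP E2.zero) E2.zero (tMod h4 (E2.const 1) hP)
  have hY' : E2 (fun w u => Y w (fun i => u (if i = 0 then 0 else i + 1))) := hY.rename _
  have a1 : E2 (fun w u => if P w (fun i => u (i + 2)) = 0 then 0 else
      (u 1 * Y w (fun i => u (if i = 0 then 0 else i + 1))) % P w (fun i => u (i + 2))) :=
    tIte h2 (tEq h2 hP.sh2 E2.zero) E2.zero (tMod h4 ((E2.get 1).mul hY') hP.sh2)
  have key : ∀ w v y, prec (fun w v => if P w v = 0 then 0 else 1 % P w v)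
      (fun w u => if P w (fun i => u (i + 2)) = 0 then 0 else
      (u 1 * Y w (fun i => u (if i = 0 then 0 else i + 1))) % P w (fun i => u (i + 2))) w v y
      = if P w v = 0 then 0 else (∏ i ∈ range y, Y w (scons i v)) % P w v := by
    intro w v y
    induction y with
    | zero => simp [prec]
    | succ y ih =>
      have e1 : ∀ a : ℕ, (fun i => scons y (scons a v) (if i = 0 then 0 else i + 1)) = scons y v := by
        intro a
        funext i
        cases i with
        | zero => rfl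
        | succ i => rfl
      have e2 : ∀ a : ℕ, (fun i => scons y (scons a v) (i + 2)) = v := fun a => rfl
      have e3 : ∀ a : ℕ, scons y (scons a v) 1 = a := fun a => rfl
      simp only [prec]
      rw [ih]
      simp only [e1, e2, e3]
      by_cases h : P w v = 0
      · simp [h]
      · simp only [h, if_false]
        rw [prod_range_succ, Nat.mod_mul_mod]
  have res := E2.brec a0 a1 hH hP (by
    intro w v y hy
    rw [key]
    split_ifs with h
    · exact Nat.zero_le _
    · exact (Nat.mod_lt _ (Nat.pos_of_ne_zero h)).le)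
  have e : (fun w v => prec (fun w v => if P w v = 0 then 0 else 1 % P w v)
      (fun w u => if P w (fun i => u (i + 2)) = 0 then 0 else
      (u 1 * Y w (fun i => u (if i = 0 then 0 else i + 1))) % P w (fun i => u (i + 2))) w v (H w v))
      = (fun w v => if P w v = 0 then 0 else (∏ i ∈ range (H w v), Y w (scons i v)) % P w v) := by
    funext w v
    exact key w v _
  rw [e] at res
  exact res

/-- Substitution of a function of the whole context for the variable number zero. -/
theorem subh_e2 {α : Type} [Fintype α] {X G : VF α} (hX : E2 X) (hG : E2 G) :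
    E2 (fun w u => X w (scons (G w u) (fun i => u (i + 1)))) := by
  have := hX.subst (fun i => match i with
    | 0 => G
    | i + 1 => fun _ u => u (i + 1)) (by
      intro i
      cases i with
      | zero => exact hG
      | succ i => exact E2.get _)
  have e : (fun w u => X w (fun i => (match i with
    | 0 => G
    | i + 1 => fun _ u => u (i + 1) : VF α) w u)) = (fun w u => X w (scons (G w u) (fun i => u (i + 1)))) := by
    funext w u
    congr 1
    funext i
    cases i <;> rfl
  rw [← e]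
  exact this

/-- E2 version of `nu`. -/
theorem nu_e2 (h1 : StL1) (h2 : StL2) (h4 : StL4) (h5 : StL5) {α : Type} [Fintype α] {P B D A X : VF α} (hP : E2 P)
    (hB : E2 B) (hD : E2 D) (hA : E2 A) (hX : E2 X) :
    E2 (fun w v => if P w v = 0 then 0 else nu (P w v) (B w v) (D w v) (A w v) (fun i => X w (scons i v))) := by
  have q : E2 (fun w u => u 0 / B w (fun i => u (i + 1))) := tDiv h4 (E2.get 0) hB.sh1
  have m : E2 (fun w u => u 0 % B w (fun i => u (i + 1))) := tMod h4 (E2.get 0) hB.sh1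
  have hXq : E2 (fun w u => X w (scons (u 0 / B w (fun i => u (i + 1))) (fun i => u (i + 1)))) := subh_e2 hX q
  have hY : E2 (fun w u => if u 0 % B w (fun i => u (i + 1)) =
      dg (B w (fun i => u (i + 1))) (A w (fun i => u (i + 1))) (u 0 / B w (fun i => u (i + 1))) then 1 else
      X w (scons (u 0 / B w (fun i => u (i + 1))) (fun i => u (i + 1))) + P w (fun i => u (i + 1)) -
        u 0 % B w (fun i => u (i + 1))) :=
    tIte h2 (tEq h2 m (tDg h5 hB.sh1 hA.sh1 q)) (E2.const 1) (tSub h1 (hXq.add hP.sh1) m)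
  exact prodmod_e2 h2 h4 hP hY (hD.mul hB)

/-- E2 version of the power modulo `P`. -/
theorem pow_e2 (h1 : StL1) (h2 : StL2) (h4 : StL4) {α : Type} [Fintype α] {P N : VF α} (hP : E2 P) (hN : E2 N) :
    E2 (fun w v => if P w v = 0 then 0 else (N w v ^ (P w v - 2)) % P w v) := by
  have := prodmod_e2 h2 h4 hP hN.sh1 (tSub h1 hP (E2.const 2))
  simp only [scons, prod_const, card_range] at this
  exact this

/-- E2 version of `dln`. -/
theorem dln_e2 (h1 : StL1) (h2 : StL2) (h4 : StL4) (h5 : StL5) {α : Type} [Fintype α] {P B D A G K : VF α} (hP : E2 P)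
    (hB : E2 B) (hD : E2 D) (hA : E2 A) (hG : E2 G) (hK : E2 K) :
    E2 (fun w v => if P w v = 0 then 0 else dln (P w v) (B w v) (D w v) (A w v) (G w v) (K w v)) := by
  have x1 : E2 (fun w u => dg (P w (fun i => u (i + 1))) (G w (fun i => u (i + 1)))
      (K w (fun i => u (i + 1)) * D w (fun i => u (i + 1)) + u 0)) :=
    tDg h5 hP.sh1 hG.sh1 ((hK.sh1.mul hD.sh1).add (E2.get 0))
  have x2 : E2 (fun w u => dg (B w (fun i => u (i + 1))) (A w (fun i => u (i + 1))) (u 0)) :=
    tDg h5 hB.sh1 hA.sh1 (E2.get 0)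
  have n1 := nu_e2 h1 h2 h4 h5 hP hB hD hA x1
  have n2 := nu_e2 h1 h2 h4 h5 hP hB hD hA x2
  have n3 := pow_e2 h1 h2 h4 hP n2
  have n4 := tIte h2 (tEq h2 hP E2.zero) E2.zero (tMod h4 (n1.mul n3) hP)
  have fe : ∀ {f g : VF α}, E2 f → f = g → E2 g := fun h e => e ▸ h
  refine fe n4 ?_
  funext w v
  by_cases hne : P w v = 0
  · simp only [hne, if_true]
  · simp only [hne, if_false]
    unfold dln
    rw [Nat.mul_mod_mod]
    rfl

/-- A packed number is E2 if its digits are. -/
theorem bld_e2 (h3 : StL3) (h4 : StL4) (h5 : StL5) {α : Type} [Fintype α] {C P N T : VF α} (hC : E2 C) (hP : E2 P)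
    (hN : E2 N) (hT : E2 T) :
    E2 (fun w v => bld (C w v) (P w v) (N w v) (fun j => T w (scons j v))) := by
  have c : E2 (fun w u => (T w u % P w (fun i => u (i + 1))) *
      pw (C w (fun i => u (i + 1))) (P w (fun i => u (i + 1))) (u 0)) :=
    (tMod h4 hT hP.sh1).mul (tPw h5 hC.sh1 hP.sh1 (E2.get 0))
  exact tSum h3 c hN

theorem mM4 : StL1 → StL2 → StL3 → StL4 → StL5 → StL6 → StM4 := by
  intro h1 h2 h3 h4 h5 _
  intro α _ F hF
  have s : ∀ i, E2 (fun w u => F i w (fun i => u (i + 1))) := fun i => (hF i).sh1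
  refine ⟨?_, ?_, ?_⟩
  · have bt1 : E2 (fun w u => dg (F 2 w (fun i => u (i + 1))) (F 7 w (fun i => u (i + 1))) (u 0 % F 3 w (fun i => u (i + 1)))) :=
      tDg h5 (s 2) (s 7) (tMod h4 (E2.get 0) (s 3))
    have d1 : E2 (fun w u => dg (F 1 w (fun i => u (i + 1))) (F 4 w (fun i => u (i + 1))) (u 0)) :=
      tDg h5 (s 1) (s 4) (E2.get 0)
    have t1 : E2 (fun w u => if u 0 / F 3 w (fun i => u (i + 1)) = F 5 w (fun i => u (i + 1)) then
        dg (F 1 w (fun i => u (i + 1))) (F 4 w (fun i => u (i + 1))) (u 0) +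
          (if F 6 w (fun i => u (i + 1)) = 0 then
              dg (F 2 w (fun i => u (i + 1))) (F 7 w (fun i => u (i + 1))) (u 0 % F 3 w (fun i => u (i + 1)))
            else F 1 w (fun i => u (i + 1)) -
              dg (F 2 w (fun i => u (i + 1))) (F 7 w (fun i => u (i + 1))) (u 0 % F 3 w (fun i => u (i + 1))))
        else dg (F 1 w (fun i => u (i + 1))) (F 4 w (fun i => u (i + 1))) (u 0)) :=
      tIte h2 (tEq h2 (tDiv h4 (E2.get 0) (s 3)) (s 5))
        (d1.add (tIte h2 (tEq h2 (s 6) E2.zero) bt1 (tSub h1 (s 1) bt1))) d1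
    exact tIte h2 (tEq h2 (hF 1) E2.zero) E2.zero
      (bld_e2 h3 h4 h5 (hF 0) (hF 1) ((E2.const 3).mul (hF 3)) t1)
  · have d1 : E2 (fun w u => dg (F 1 w (fun i => u (i + 1))) (F 4 w (fun i => u (i + 1))) (u 0)) :=
      tDg h5 (s 1) (s 4) (E2.get 0)
    have t1 : E2 (fun w u => if u 0 / F 2 w (fun i => u (i + 1)) = F 5 w (fun i => u (i + 1)) then
        dg (F 1 w (fun i => u (i + 1))) (F 4 w (fun i => u (i + 1))) (u 0)
        else F 3 w (fun i => u (i + 1)) * dg (F 1 w (fun i => u (i + 1))) (F 4 w (fun i => u (i + 1))) (u 0)) :=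
      tIte h2 (tEq h2 (tDiv h4 (E2.get 0) (s 2)) (s 5)) d1 ((s 3).mul d1)
    exact tIte h2 (tEq h2 (hF 1) E2.zero) E2.zero
      (bld_e2 h3 h4 h5 (hF 0) (hF 1) ((E2.const 3).mul (hF 2)) t1)
  · have bt1 : E2 (fun w u => dg (F 2 w (fun i => u (i + 1))) (F 9 w (fun i => u (i + 1))) (u 0 % F 3 w (fun i => u (i + 1)))) :=
      tDg h5 (s 2) (s 9) (tMod h4 (E2.get 0) (s 3))
    have d1 : E2 (fun w u => dg (F 1 w (fun i => u (i + 1))) (F 4 w (fun i => u (i + 1))) (u 0)) :=
      tDg h5 (s 1) (s 4) (E2.get 0)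
    have l1 := dln_e2 h1 h2 h4 h5 (hF 1) (hF 2) (hF 3) (hF 7) (hF 4) (tMod h4 ((hF 5).add (E2.const 1)) (E2.const 3))
    have l2 := dln_e2 h1 h2 h4 h5 (hF 1) (hF 2) (hF 3) (hF 8) (hF 4) (tMod h4 ((hF 5).add (E2.const 2)) (E2.const 3))
    have l1' := l1.sh1
    have l2' := l2.sh1
    have t1 : E2 (fun w u => if u 0 / F 3 w (fun i => u (i + 1)) = F 5 w (fun i => u (i + 1)) then
        dg (F 1 w (fun i => u (i + 1))) (F 4 w (fun i => u (i + 1))) (u 0) +
          (if F 6 w (fun i => u (i + 1)) = 0 then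
            F 1 w (fun i => u (i + 1)) - ((if F 1 w (fun i => u (i + 1)) = 0 then 0 else
              dln (F 1 w (fun i => u (i + 1))) (F 2 w (fun i => u (i + 1))) (F 3 w (fun i => u (i + 1))) (F 7 w (fun i => u (i + 1)))
              (F 4 w (fun i => u (i + 1))) ((F 5 w (fun i => u (i + 1)) + 1) % 3)) *
              (if F 1 w (fun i => u (i + 1)) = 0 then 0 else
              dln (F 1 w (fun i => u (i + 1))) (F 2 w (fun i => u (i + 1))) (F 3 w (fun i => u (i + 1))) (F 8 w (fun i => u (i + 1)))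
              (F 4 w (fun i => u (i + 1))) ((F 5 w (fun i => u (i + 1)) + 2) % 3)) *
              dg (F 2 w (fun i => u (i + 1))) (F 9 w (fun i => u (i + 1))) (u 0 % F 3 w (fun i => u (i + 1)))) % F 1 w (fun i => u (i + 1))
            else (if F 1 w (fun i => u (i + 1)) = 0 then 0 else
              dln (F 1 w (fun i => u (i + 1))) (F 2 w (fun i => u (i + 1))) (F 3 w (fun i => u (i + 1))) (F 7 w (fun i => u (i + 1)))
              (F 4 w (fun i => u (i + 1))) ((F 5 w (fun i => u (i + 1)) + 1) % 3)) *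
              (if F 1 w (fun i => u (i + 1)) = 0 then 0 else
              dln (F 1 w (fun i => u (i + 1))) (F 2 w (fun i => u (i + 1))) (F 3 w (fun i => u (i + 1))) (F 8 w (fun i => u (i + 1)))
              (F 4 w (fun i => u (i + 1))) ((F 5 w (fun i => u (i + 1)) + 2) % 3)) *
              dg (F 2 w (fun i => u (i + 1))) (F 9 w (fun i => u (i + 1))) (u 0 % F 3 w (fun i => u (i + 1))))
        else dg (F 1 w (fun i => u (i + 1))) (F 4 w (fun i => u (i + 1))) (u 0)) :=
      tIte h2 (tEq h2 (tDiv h4 (E2.get 0) (s 3)) (s 5))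
        (d1.add (tIte h2 (tEq h2 (s 6) E2.zero) (tSub h1 (s 1) (tMod h4 ((l1'.mul l2').mul bt1) (s 1)))
          ((l1'.mul l2').mul bt1))) d1
    have t2 := bld_e2 h3 h4 h5 (hF 0) (hF 1) ((E2.const 3).mul (hF 3)) t1
    have t3 := tIte h2 (tEq h2 (hF 1) E2.zero) E2.zero t2
    have fe : ∀ {f g : VF α}, E2 f → f = g → E2 g := fun h e => e ▸ h
    refine fe t3 ?_
    funext w v
    by_cases hne : F 1 w v = 0
    · simp only [hne, if_true]
    · simp only [hne, if_false]
      unfold updn
      congr 1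
      funext j
      simp only [scons, hne, if_false]

end Pool.Agent.Helper83.PT.Helper79
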